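import Pool.Agent.Helper16.MD.Stmts

/-!
Module WRD: one word.
-/

open Finset Filter
open scoped ComplexConjugate

namespace Pool.Agent.Helper16.MD

open Pool.Agent.Helper51.Mo (PM pw len Lev Orth)

theorem wrd_ee_add (x y : ℝ) : ee (x + y) = ee x * ee y := by
  unfold ee
  rw [← Complex.exp_add]
  congr 1
  push_cast
  ring

theorem wrd_ee_int (m : ℤ) : ee m = 1 := by
  unfold ee
  rw [Complex.exp_eq_one_iff]
  exact ⟨m, by push_cast; ring⟩

theorem wrd_ee_norm (x : ℝ) : ‖ee x‖ = 1 := Complex.norm_exp_ofReal_mul_I _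

theorem wrd_lower (y : ℝ) (hy : |y| ≤ 1 / 2) : 4 * |y| ≤ ‖ee y - 1‖ := by
  have h1 : ‖ee y - 1‖ = ‖2 * Real.sin (2 * Real.pi * y / 2)‖ := by
    unfold ee
    rw [mul_comm, Complex.norm_exp_I_mul_ofReal_sub_one]
  have h2 : 2 * Real.pi * y / 2 = Real.pi * y := by ring
  rw [h1, h2, Real.norm_eq_abs, abs_mul, abs_of_pos (by norm_num : (0 : ℝ) < 2)]
  have hpi := Real.pi_pos
  have h3 : 2 / Real.pi * (Real.pi * |y|) ≤ Real.sin (Real.pi * |y|) := by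
    apply Real.mul_le_sin
    · positivity
    · nlinarith
  have h4 : 2 / Real.pi * (Real.pi * |y|) = 2 * |y| := by
    field_simp
  have h5 : |Real.sin (Real.pi * y)| = |Real.sin (Real.pi * |y|)| := by
    rcases abs_cases y with ⟨h, _⟩ | ⟨h, _⟩
    · rw [h]
    · rw [h, mul_neg, Real.sin_neg, abs_neg]
  have h6 := le_abs_self (Real.sin (Real.pi * |y|))
  rw [h5]
  linarith

theorem wrd_sq_dist (z ζ : ℂ) (hz : ‖z‖ = 1) (hζ : ‖ζ‖ = 1) :
    ‖z ^ 2 - ζ ^ 2‖ ≤ 2 * ‖z - ζ‖ := by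
  have h : z ^ 2 - ζ ^ 2 = (z + ζ) * (z - ζ) := by ring
  rw [h, norm_mul]
  have h1 : ‖z + ζ‖ ≤ 2 := by
    have := norm_add_le z ζ
    linarith
  exact mul_le_mul_of_nonneg_right h1 (norm_nonneg _)

theorem wrd_norm_sub_sq (z ζ : ℂ) (hz : ‖z‖ = 1) (hζ : ‖ζ‖ = 1) :
    ‖z - ζ‖ ^ 2 = 2 - 2 * (z * conj ζ).re := by
  rw [← Complex.normSq_eq_norm_sq, Complex.normSq_sub, Complex.normSq_eq_norm_sq,
    Complex.normSq_eq_norm_sq, hz, hζ]
  ring

theorem wrd_sum (l : ℕ) (z : ℕ → ℂ) (ζ : ℂ) (hz : ∀ x, ‖z x‖ = 1) (hζ : ‖ζ‖ = 1) :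
    ∑ x ∈ range l, ‖z x - ζ‖ ^ 2 = 2 * l - 2 * ((∑ x ∈ range l, z x) * conj ζ).re := by
  rw [Finset.sum_mul, Complex.re_sum, Finset.mul_sum]
  rw [Finset.sum_congr rfl fun x _ => wrd_norm_sub_sq (z x) ζ (hz x) hζ]
  rw [Finset.sum_sub_distrib]
  simp
  ring

theorem wrd_lag (l h : ℕ) (z : ℕ → ℂ) (ζ : ℂ) (a : ℝ) (hh : 2 * h ≤ l) (hl : 1 ≤ l)
    (S : ℝ) (hS : ∑ x ∈ range l, ‖z x - ζ‖ ^ 2 ≤ S)
    (hd : ∀ x, a ≤ 2 * (‖z (x + h) - ζ‖ + ‖z x - ζ‖)) (ha : 0 ≤ a) :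
    (l : ℝ) * a ^ 2 ≤ 32 * S := by
  have h1 : ∀ x, a ^ 2 ≤ 8 * (‖z (x + h) - ζ‖ ^ 2 + ‖z x - ζ‖ ^ 2) := by
    intro x
    have h2 := hd x
    have h3 : 0 ≤ ‖z (x + h) - ζ‖ := norm_nonneg _
    have h4 : 0 ≤ ‖z x - ζ‖ := norm_nonneg _
    have h5 : a ^ 2 ≤ (2 * (‖z (x + h) - ζ‖ + ‖z x - ζ‖)) ^ 2 := by
      apply pow_le_pow_left₀ ha h2
    nlinarith [sq_nonneg (‖z (x + h) - ζ‖ - ‖z x - ζ‖)]
  have h2 : ∑ x ∈ range (l - h), a ^ 2 ≤
      ∑ x ∈ range (l - h), 8 * (‖z (x + h) - ζ‖ ^ 2 + ‖z x - ζ‖ ^ 2) :=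
    Finset.sum_le_sum fun x _ => h1 x
  rw [← Finset.mul_sum, Finset.sum_add_distrib] at h2
  have h3 : ∑ x ∈ range (l - h), ‖z (x + h) - ζ‖ ^ 2 ≤ S := by
    refine le_trans ?_ hS
    have h4 : ∑ x ∈ range (l - h), ‖z (x + h) - ζ‖ ^ 2 =
        ∑ x ∈ Finset.Ico h l, ‖z x - ζ‖ ^ 2 := by
      rw [Finset.sum_Ico_eq_sum_range]
      apply Finset.sum_congr rfl
      intro x _
      rw [add_comm]
    rw [h4]
    apply Finset.sum_le_sum_of_subset_of_nonneg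
    · intro x hx
      simp only [Finset.mem_Ico] at hx
      simpa using hx.2
    · intro x _ _
      positivity
  have h4 : ∑ x ∈ range (l - h), ‖z x - ζ‖ ^ 2 ≤ S := by
    refine le_trans ?_ hS
    apply Finset.sum_le_sum_of_subset_of_nonneg
    · intro x hx
      simp only [Finset.mem_range] at hx ⊢
      omega
    · intro x _ _
      positivity
  have h5 : ((l - h : ℕ) : ℝ) * a ^ 2 ≤ 16 * S := by
    have h6 : ∑ x ∈ range (l - h), a ^ 2 = ((l - h : ℕ) : ℝ) * a ^ 2 := by simp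
    linarith
  have h7 : (l : ℝ) ≤ 2 * ((l - h : ℕ) : ℝ) := by
    have : l ≤ 2 * (l - h) := by omega
    exact_mod_cast this
  nlinarith [sq_nonneg a]

theorem st_WRD : ST_WRD := by
  refine ⟨1 / 2500, by norm_num, ?_⟩
  intro β ℓ i θ hl hpm hA
  set l := ℓ i with hl'
  have hlpos : (0 : ℝ) < (l : ℝ) := by
    have : 0 < l := by omega
    exact_mod_cast this
  set z : ℕ → ℂ := fun x => ((β i x : ℝ) : ℂ) * ee (θ * x) with hzdef
  have hz : ∀ x, ‖z x‖ = 1 := by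
    intro x
    simp only [hzdef, norm_mul, wrd_ee_norm, mul_one]
    rcases hpm x with h | h <;> simp [h]
  set M : ℂ := ∑ x ∈ range l, z x with hM
  have hA' : (1 - 1 / 2500) * (l : ℝ) ≤ ‖M‖ := by
    unfold AW at hA
    rw [norm_div, Complex.norm_natCast] at hA
    rw [le_div_iff₀ hlpos] at hA
    exact hA
  have hMpos : 0 < ‖M‖ := by nlinarith
  set ζ : ℂ := M / (‖M‖ : ℂ) with hζdef
  have hζ : ‖ζ‖ = 1 := by
    rw [hζdef, norm_div]
    simp [hMpos.ne']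
  have hMζ : (M * conj ζ).re = ‖M‖ := by
    rw [hζdef, map_div₀, Complex.conj_ofReal, ← mul_div_assoc, Complex.mul_conj,
      Complex.normSq_eq_norm_sq]
    rw [← Complex.ofReal_div, Complex.ofReal_re]
    field_simp
  have hS : ∑ x ∈ range l, ‖z x - ζ‖ ^ 2 ≤ l / 1250 := by
    rw [wrd_sum l z ζ hz hζ, ← hM, hMζ]
    linarith
  -- the reduced frequency
  set m : ℤ := round (2 * θ) with hm
  set φ : ℝ := 2 * θ - m with hφ
  have hφ2 : |φ| ≤ 1 / 2 := abs_sub_round _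
  have hw : ∀ x : ℕ, z x ^ 2 = ee (φ * x) := by
    intro x
    have h1 : z x ^ 2 = ee (2 * θ * x) := by
      simp only [hzdef, mul_pow]
      have h2 : ((β i x : ℝ) : ℂ) ^ 2 = 1 := by
        rcases hpm x with h | h <;> simp [h]
      rw [h2, one_mul, sq, ← wrd_ee_add]
      congr 1
      ring
    have h2 : ee (2 * θ * x) = ee (φ * x) * ee (((m * (x : ℤ) : ℤ) : ℝ)) := by
      rw [← wrd_ee_add]
      congr 1
      rw [hφ]
      push_cast
      ring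
    rw [h1, h2, wrd_ee_int, mul_one]
  have hstep : ∀ h : ℕ, 2 * h ≤ l → |(h : ℝ) * φ| ≤ 1 / 2 → |(h : ℝ) * φ| ≤ 1 / 24 := by
    intro h hh hy
    have h1 := wrd_lower _ hy
    have h2 : (l : ℝ) * ‖ee ((h : ℝ) * φ) - 1‖ ^ 2 ≤ 32 * (l / 1250) := by
      apply wrd_lag l h z ζ _ hh (by omega) _ hS
      · intro x
        have h3 : ‖ee ((h : ℝ) * φ) - 1‖ = ‖z (x + h) ^ 2 - z x ^ 2‖ := by
          rw [hw, hw]
          have h4 : ee (φ * ((x + h : ℕ) : ℝ)) - ee (φ * (x : ℝ)) =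
              ee (φ * x) * (ee ((h : ℝ) * φ) - 1) := by
            have h5 : φ * ((x + h : ℕ) : ℝ) = φ * x + (h : ℝ) * φ := by
              push_cast
              ring
            rw [h5, wrd_ee_add]
            ring
          rw [h4, norm_mul, wrd_ee_norm, one_mul]
        rw [h3]
        have h4 : z (x + h) ^ 2 - z x ^ 2 = (z (x + h) ^ 2 - ζ ^ 2) - (z x ^ 2 - ζ ^ 2) := by ring
        rw [h4]
        have h5 := norm_sub_le (z (x + h) ^ 2 - ζ ^ 2) (z x ^ 2 - ζ ^ 2)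
        have h6 := wrd_sq_dist (z (x + h)) ζ (hz _) hζ
        have h7 := wrd_sq_dist (z x) ζ (hz _) hζ
        linarith
      · exact norm_nonneg _
    have h3 : ‖ee ((h : ℝ) * φ) - 1‖ ^ 2 ≤ 32 / 1250 := by
      by_contra hcon
      push Not at hcon
      nlinarith
    have h4 : (4 * |(h : ℝ) * φ|) ^ 2 ≤ 32 / 1250 :=
      le_trans (pow_le_pow_left₀ (by positivity) h1 2) h3
    by_contra hcon
    push Not at hcon
    nlinarith
  have h1φ : |φ| ≤ 1 / 24 := by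
    have := hstep 1 (by omega) (by simpa using hφ2)
    simpa using this
  have hind : ∀ h : ℕ, 2 * h ≤ l → |(h : ℝ) * φ| ≤ 1 / 24 := by
    intro h
    induction h with
    | zero => intro _; simp
    | succ h ih =>
      intro hh
      apply hstep _ hh
      have h2 := ih (by omega)
      have h3 : ((h + 1 : ℕ) : ℝ) * φ = (h : ℝ) * φ + φ := by
        push_cast
        ring
      rw [h3]
      have h4 := abs_add_le ((h : ℝ) * φ) φ
      linarith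
  refine ⟨m, ?_⟩
  have h3 := hind (l / 2) (by omega)
  rw [abs_mul, abs_of_nonneg (by positivity : (0 : ℝ) ≤ ((l / 2 : ℕ) : ℝ))] at h3
  have h4 : (l : ℝ) ≤ 3 * ((l / 2 : ℕ) : ℝ) := by
    have : l ≤ 3 * (l / 2) := by omega
    exact_mod_cast this
  have h5 : (0 : ℝ) ≤ |φ| := abs_nonneg _
  have h6 : (l : ℝ) * |φ| ≤ 3 * ((l / 2 : ℕ) : ℝ) * |φ| := mul_le_mul_of_nonneg_right h4 h5
  rw [← hφ]
  linarith

end Pool.Agent.Helper16.MD
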